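import Mathlib

/-!
Definitions for the phase-lock areas of the equation
`dφ/dτ = (-sin φ + B + A cos τ) / ω`.
-/

namespace Pool.Agent.MP_1623fe_an

open Filter Topology

/-- `φ : ℝ → ℝ` solves `dφ/dτ = (-sin φ + B + A cos τ) / ω` on the whole line. -/
def IsSolution (ω B A : ℝ) (φ : ℝ → ℝ) : Prop :=
  ∀ τ : ℝ, HasDerivAt φ ((-Real.sin (φ τ) + B + A * Real.cos τ) / ω) τ

/-- The phase-lock area `L_r`: the parameters `(B, A)` whose rotation number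
`lim_{τ → +∞} φ(τ) / τ` equals `r`. -/
def phaseLockArea (ω : ℝ) (r : ℤ) : Set (ℝ × ℝ) :=
  {p | ∃ φ : ℝ → ℝ, IsSolution ω p.1 p.2 φ ∧ Tendsto (fun τ => φ τ / τ) atTop (𝓝 (r : ℝ))}

/-- The left boundary curve `B = g_{r,-}(A)` of `L_r`. -/
noncomputable def gMinus (ω : ℝ) (r : ℤ) (A : ℝ) : ℝ :=
  sInf {B : ℝ | (B, A) ∈ phaseLockArea ω r}

/-- The right boundary curve `B = g_{r,+}(A)` of `L_r`. -/
noncomputable def gPlus (ω : ℝ) (r : ℤ) (A : ℝ) : ℝ :=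
  sSup {B : ℝ | (B, A) ∈ phaseLockArea ω r}

end Pool.Agent.MP_1623fe_an
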